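import Pool.Agent.H65.TWConv
import Pool.Agent.H65.PWCyc

/-!
# MP_4332cb_co, Q2 for graphs of bounded treewidth

Every finite graph of treewidth at most `k` without cycles of length 3, 4 and 6 (for instance: of
girth at least 7) has a 2-colouring in which every monochromatic connected set of vertices has at
most `4112 (k + 1) ^ 9` elements.
-/

namespace Pool.Agent.Results.MP_4332cb_co.TreewidthGirthSeven

open H65PW H65TW Finset

universe u

theorem bound_le (k : ℕ) :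
    bnd (2 * k + 1) (2 * ((2 * k + 1) + 2 * ((2 * k + 1) * (2 * k + 1)) + 1) * (k + 1)) ≤
      4112 * (k + 1) ^ 9 := by
  have h1 : 2 * ((2 * k + 1) + 2 * ((2 * k + 1) * (2 * k + 1)) + 1) * (k + 1) ≤
      16 * (k + 1) ^ 3 := by nlinarith [Nat.zero_le k]
  have h2 : (2 * k + 1) + 2 * ((2 * k + 1) + 2 * ((2 * k + 1) * (2 * k + 1)) + 1) * (k + 1) ≤
      16 * (k + 1) ^ 3 := by nlinarith [Nat.zero_le k]
  rw [bnd]
  calc _ ≤ 16 * (k + 1) ^ 3 + (16 * (k + 1) ^ 3) * (16 * (k + 1) ^ 3) * (16 * (k + 1) ^ 3) :=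
        Nat.add_le_add h1 (Nat.mul_le_mul (Nat.mul_le_mul h2 h2) h1)
    _ = 16 * (k + 1) ^ 3 + 4096 * (k + 1) ^ 9 := by ring
    _ ≤ 16 * (k + 1) ^ 9 + 4096 * (k + 1) ^ 9 := by
        have : (k + 1) ^ 3 ≤ (k + 1) ^ 9 := Nat.pow_le_pow_right (by omega) (by omega)
        omega
    _ = 4112 * (k + 1) ^ 9 := by ring

theorem result (k : ℕ) (V : Type u) [Finite V] (G : SimpleGraph V) (hk : TreewidthLE G k)
    -- no cycle of length 3, 4 or 6
    (hG : ∀ (v : V) (w : G.Walk v v), w.IsCycle → w.length ≠ 3 ∧ w.length ≠ 4 ∧ w.length ≠ 6) :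
    ∃ c : V → Bool, ∀ S : Finset V, (G.induce (S : Set V)).Connected →
      (∀ u ∈ S, ∀ v ∈ S, c u = c v) → S.card ≤ 4112 * (k + 1) ^ 9 := by
  classical
  have := Fintype.ofFinite V
  obtain ⟨H, f, hGH, hE⟩ := exists_elim hk
  have hS : Sep G (2 * k + 1)
      (2 * ((2 * k + 1) + 2 * ((2 * k + 1) * (2 * k + 1)) + 1) * (k + 1)) := by
    intro X hX
    obtain ⟨Y, h1, h2, h3⟩ := sep hE hGH X
    exact ⟨Y, h1, h2.trans (Nat.mul_le_mul_right _ (Nat.mul_le_mul_left _ hX)), h3⟩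
  have hP : Piece G Finset.univ ∅ ∅ false (fun _ : V => false) (2 * k + 1) :=
    ⟨fun v _ x _ => Or.inl (Finset.mem_univ x), by simp, by simp, by simp, by simp, by simp⟩
  obtain ⟨c, _, hc⟩ := main (good_of hG) hS _ Finset.univ le_rfl ∅ ∅ false _ hP
  refine ⟨c, ?_⟩
  intro S hconn hmono
  obtain ⟨a⟩ := hconn.nonempty
  refine le_trans (Finset.card_le_card (t := Clus G c Finset.univ (a : V)) ?_)
    ((hc.clus (a : V) (Finset.mem_univ _)).trans (bound_le k))
  intro v hv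
  rw [mem_Clus]
  exact ⟨Finset.mem_univ _, reach_of hmono a ⟨v, by simpa using hv⟩ (hconn.preconnected _ _)⟩

end Pool.Agent.Results.MP_4332cb_co.TreewidthGirthSeven
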